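import Pool.Agent.Lib.MP_2f8515_co.Lower

/-!
# The minimum length of a strong `(2, n)`-shuffle is of order `n log n`
-/

namespace Pool.Agent.Results.MP_2f8515_co.ThetaNLogN

open Pool.Agent.Lib.MP_2f8515_co

/-- `U2all n = Θ(n log n)`: strong `(2, n)`-shuffles exist for all `n ≥ 2`, the minimum length
`U2all n` is at least `(1/2) n log₂ n` and at most `C n log n` for an absolute constant `C`. -/
theorem result :
    (∃ C : ℝ, ∀ n : ℕ, 2 ≤ n →
      (∃ (l : ℕ) (T : Fin l → LazyTransposition n), IsStrongTwoShuffle T) ∧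
      (1 / 2 : ℝ) * n * Real.logb 2 n ≤ U2all n ∧
      (U2all n : ℝ) ≤ C * n * Real.log n) ∧
    (fun n : ℕ => (U2all n : ℝ)) =Θ[Filter.atTop] (fun n : ℕ => (n : ℝ) * Real.log n) := by
  have key : ∃ C : ℝ, ∀ n : ℕ, 2 ≤ n →
      (∃ (l : ℕ) (T : Fin l → LazyTransposition n), IsStrongTwoShuffle T) ∧
      (1 / 2 : ℝ) * n * Real.logb 2 n ≤ U2all n ∧
      (U2all n : ℝ) ≤ C * n * Real.log n := by
    obtain ⟨C, hC⟩ := strong_general
    have hl2 : 0 < Real.log 2 := Real.log_pos (by norm_num)
    refine ⟨C / Real.log 2, fun n hn => ?_⟩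
    obtain ⟨l, hl, T, hT⟩ := exists_shuffle (hC n hn)
    have hne : {l : ℕ | ∃ T : Fin l → LazyTransposition n, IsStrongTwoShuffle T}.Nonempty :=
      ⟨l, T, hT⟩
    refine ⟨⟨l, T, hT⟩, ?_, ?_⟩
    · obtain ⟨T', hT'⟩ := Nat.sInf_mem hne
      exact lower hn T' hT'
    · have h1 : U2all n ≤ l := Nat.sInf_le ⟨T, hT⟩
      have h2 : (U2all n : ℝ) ≤ C * n * Nat.log 2 n := by exact_mod_cast h1.trans hl
      have h3 : (Nat.log 2 n : ℝ) ≤ Real.log n / Real.log 2 := by
        have := Real.natLog_le_logb n 2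
        simpa [Real.logb] using this
      calc (U2all n : ℝ) ≤ C * n * Nat.log 2 n := h2
        _ ≤ C * n * (Real.log n / Real.log 2) := mul_le_mul_of_nonneg_left h3 (by positivity)
        _ = C / Real.log 2 * n * Real.log n := by ring
  refine ⟨key, ?_⟩
  obtain ⟨C, hC⟩ := key
  have hl2 : 0 < Real.log 2 := Real.log_pos (by norm_num)
  constructor
  · apply Asymptotics.IsBigO.of_bound C
    filter_upwards [Filter.eventually_ge_atTop 2] with n hn
    have h1 := (hC n hn).2.2
    have hlog : 0 ≤ Real.log n := Real.log_natCast_nonneg n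
    rw [Real.norm_of_nonneg (by positivity), Real.norm_of_nonneg (by positivity)]
    linarith
  · apply Asymptotics.IsBigO.of_bound (2 * Real.log 2)
    filter_upwards [Filter.eventually_ge_atTop 2] with n hn
    have h1 := (hC n hn).2.1
    have hlog : 0 ≤ Real.log n := Real.log_natCast_nonneg n
    rw [Real.norm_of_nonneg (by positivity), Real.norm_of_nonneg (by positivity)]
    unfold Real.logb at h1
    rw [mul_div_assoc', div_le_iff₀ hl2] at h1
    linarith

end Pool.Agent.Results.MP_2f8515_co.ThetaNLogN
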